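import Pool.Agent.Y797.IV.Unr
import Pool.Agent.Y797.IV.Pos
import Pool.Agent.TH577.UA.Dom
set_option autoImplicit false

/-!
Beilinson's conjecture on regulators in weight `dim X + 1`, for `i = dim X`: hypersurfaces
`λ g ∏_e L_e ^ (w_e + 1) = 1`, where the `L_e` are arbitrary different affine forms over an arbitrary
number field (for instance over `ℚ`), for all large and sufficiently divisible integers `λ`:
unramified classes in Milnor K-theory with linearly independent regulators, one for each basis of the
arrangement without broken circuits and of internal activity zero. No unimodularity of the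
arrangement is assumed. For lines in general position: smooth plane curves of all degrees, with as
many classes as their genus.
-/

namespace Pool.Agent.Results.MP_a09a03_nt.ArrangementsNumberField

open Pool.Agent.TH826.MK (KQ symb Unramified Torus)

open Pool.Agent.TH826.GA (cm vtx)

open Pool.Agent.TH577.UA

open Pool.Agent.Y797.IV (Clears degM GenPos SmoothClosure)

section defs

variable {K : Type*} [Field K] {n m : ℕ}

/-- If `g = 1`, the hypersurface `λ ∏_e L_e ^ (w_e + 1) = 1` is smooth (the gradient does not vanish
at the complex points over `σ`), and if moreover `w_e = 0` for a nonconstant form `L_e`, its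
coordinate ring is a domain. -/
def SmoothDomain (σ : K →+* ℂ) (lam : K) (g : MvPolynomial (Fin (n + 1)) K)
    (w : Fin (m + 1) → ℕ) (c : Fin (m + 1) → Fin (n + 1) → K) (a : Fin (m + 1) → K) : Prop :=
  g = 1 →
    (∀ x : Fin (n + 1) → ℂ, MvPolynomial.eval₂ σ x (aeqn lam g w c a) = 0 →
      ∃ j, MvPolynomial.eval₂ σ x (MvPolynomial.pderiv j (aeqn lam g w c a)) ≠ 0) ∧
    ((∃ e, w e = 0 ∧ ∃ j, c e j ≠ 0) → IsDomain (ARing lam g w c a))

/-- The symbols of the bases have unramified images in the Milnor K-theory of all fields `L` with a
homomorphism from the coordinate ring to `L`. -/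
def UnramifiedSymbols.{u, v} {K : Type u} [Field K] (lam : K) (g : MvPolynomial (Fin (n + 1)) K)
    (w : Fin (m + 1) → ℕ) (c : Fin (m + 1) → Fin (n + 1) → K) (a : Fin (m + 1) → K) : Prop :=
  ∀ (L : Type v) [Field L] (f : ARing lam g w c a →+* L) (T : Fin (n + 1) → Fin (m + 1)),
    (cm c T).det ≠ 0 → KQ.map (n + 1) f (symb (aent lam g w c a T)) ∈ Unramified L (n + 1)

/-- There are tori `Γ_T` of dimension `n` in the complex points (over `σ`) of the hypersurface, for
`T` in the index set `Ix`, such that the determinant of the regulators of the symbols of the `T'` in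
`Ix` on the tori `Γ_T` does not vanish. -/
def IndependentRegulators (σ : K →+* ℂ) (lam : K) (g : MvPolynomial (Fin (n + 1)) K)
    (w : Fin (m + 1) → ℕ) (c : Fin (m + 1) → Fin (n + 1) → K) (a : Fin (m + 1) → K) : Prop :=
  ∃ Γ : Ix c a → Torus (ARing lam g w c a) n,
    (∀ T θ (x : K), (Γ T).e θ (acst lam g w c a x) = σ x) ∧
    (Matrix.of fun T T' : Ix c a => (Γ T).reg (symb (aent lam g w c a T'.1))).det ≠ 0

end defs

/-- Let `1 ≤ n`, let `σ` be a complex embedding of the number field `K`, and let
`L_e = ∑_j c_{e,j} x_j - a_e`, `0 ≤ e ≤ m`, be affine forms in `n + 1` variables with integral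
coefficients in `K`, such that some `n + 1` of the forms have linearly independent linear parts and
no form is a multiple of another one. Let `w_e ≥ 0` be integers and let `g` be a polynomial with
integral coefficients which does not vanish at the vertices of the arrangement (the common zeros of
`n + 1` forms with linearly independent linear parts). An algebraic integer `D ≠ 0` of `K` clears the
denominators of the vertices, if the coordinates of `D p` are integral for all vertices `p`; there are
such `D` (even positive rational integers). There is a constant `C` such that for all these `D`, with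
`M = deg g + ∑_e (w_e + 1)`, for all algebraic integers `μ` of `K` and `λ = μ D ^ M` with
`|σ λ| ≥ C` the following holds for the coordinate ring `A` of the hypersurface
`λ g ∏_e L_e ^ (w_e + 1) = 1`.

If `g = 1`, the hypersurface is smooth (the gradient does not vanish at the complex points over
`σ`), and if moreover `w_e = 0` for a nonconstant form `L_e`, the ring `A` is a domain.

For all `T = (T_0, ..., T_n)` with nonzero determinant `det (c_{T_i,j})` the symbol
`{u_0, ..., u_n}`, `u_i = κ_i L_{T_i} / L_{h_i}`, where `h_i` is the largest index such that the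
determinant of `T` with `T_i` replaced by `h_i` is not zero and `κ_i` is the quotient of this
determinant and of the one of `T`, has unramified images in the Milnor K-theory of all fields `L`
with a homomorphism `A → L`.

There are tori `Γ_T` of dimension `n` in the complex points (over `σ`) of the hypersurface, such that
the determinant of the regulators of the symbols of the `T'` on the tori `Γ_T` does not vanish; here
`T` and `T'` run through the set `Ix` of all `T_0 < ... < T_n` with nonzero determinant such that
every `T_i` can be replaced by a later form (with nonzero determinant), and every other form which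
vanishes at the vertex of `T` can replace a later form `T_i`.

If `g = 1`, all `w_e = 0`, and the arrangement is in general position (the linear parts of `n + 1`
different forms are linearly independent, `n + 2` different forms have no common zero), the number
of the elements of `Ix` is `binom(m, n + 1)`, and the closure of the hypersurface in the projective
space, of degree `m + 1`, is smooth (over `σ`) at all points with the exception of the points at
infinity at which two of the forms vanish; for `n = 1` there are no exceptions, the closure is a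
smooth plane curve of degree `m + 1`, and `binom(m, 2)` is its genus. -/
theorem result.{u, v} (n : ℕ) (hn : 1 ≤ n) (m : ℕ) (K : Type u) [Field K] [NumberField K]
    (σ : K →+* ℂ) (c : Fin (m + 1) → Fin (n + 1) → K) (a : Fin (m + 1) → K)
    (hc : ∀ e j, IsIntegral ℤ (c e j)) (ha : ∀ e, IsIntegral ℤ (a e)) (hD : Distinct c a)
    (hR : ∃ T : Fin (n + 1) → Fin (m + 1), (cm c T).det ≠ 0)
    (w : Fin (m + 1) → ℕ) (g : MvPolynomial (Fin (n + 1)) K)
    (hg : ∀ k, IsIntegral ℤ (g.coeff k))
    (hv : ∀ T : Fin (n + 1) → Fin (m + 1), (cm c T).det ≠ 0 →
      MvPolynomial.eval (vtx c a T) g ≠ 0) :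
    (∃ D : ℕ, Clears c a (D : K)) ∧
    ∃ C : ℝ, ∀ D mu : K, Clears c a D → IsIntegral ℤ mu → C ≤ ‖σ (mu * D ^ degM g w)‖ →
      SmoothDomain σ (mu * D ^ degM g w) g w c a ∧
      UnramifiedSymbols.{u, v} (mu * D ^ degM g w) g w c a ∧
      IndependentRegulators σ (mu * D ^ degM g w) g w c a ∧
      (g = 1 → (∀ e, w e = 0) → GenPos c a →
        Fintype.card (Ix c a) = m.choose (n + 1) ∧
        SmoothClosure σ (mu * D ^ degM g w) c a ∧
        (n = 1 → ∀ X : Fin (n + 1) → ℂ, X ≠ 0 → ∀ e e', e ≠ e' →
          ∑ j, σ (c e j) * X j = 0 → ∑ j, σ (c e' j) * X j ≠ 0)) := by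
  obtain ⟨d, rfl⟩ : ∃ d, n = d + 1 := ⟨n - 1, by omega⟩
  refine ⟨Pool.Agent.Y797.IV.exists_clears c a, ?_⟩
  obtain ⟨c1, hc1, h⟩ := exists_tori (g := g) (w := w) σ hD hv
  obtain ⟨c2, h2⟩ := exists_smooth (a := a) σ hR w
  refine ⟨max c1 c2, fun D mu hDc hmu hl => ?_⟩
  generalize hlam : mu * D ^ degM g w = lam at hl
  have hl1 : c1 ≤ ‖σ lam‖ := (le_max_left _ _).trans hl
  have hl0 : lam ≠ 0 := by
    intro h0
    rw [h0, map_zero, norm_zero] at hl1
    linarith
  have hsm := h2 lam ((le_max_right _ _).trans hl)
  refine ⟨fun hg1 => ?_, fun L _ f T hT => Pool.Agent.Y797.IV.symb_mem_unramified f hc ha hg hDc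
    hmu hlam.symm hT, h lam hl1, fun hg1 hw hgen => ⟨Pool.Agent.Y797.IV.card_ix hgen, ?_, ?_⟩⟩
  · subst hg1
    exact ⟨hsm, fun ⟨e, he1, he2⟩ => isDomain_ARing hR hD he2 he1 hl0⟩
  · obtain rfl : w = fun _ => 0 := funext hw
    refine Pool.Agent.Y797.IV.smoothClosure hl0 (Pool.Agent.Y797.IV.row_ne hgen hR) ?_
    rw [← Pool.Agent.Y797.IV.aeqn_one]
    exact hsm
  · intro hd1
    obtain rfl : d = 0 := by omega
    intro X hX e e' hee h1
    exact Pool.Agent.Y797.IV.two_forms hgen σ hX hee h1

end Pool.Agent.Results.MP_a09a03_nt.ArrangementsNumberField
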