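import Pool.Agent.TH333.CY.Final
import Pool.Agent.Y797.CY.Unr
import Pool.Agent.Y797.CY.Quad
import Pool.Agent.Y797.IV.Unr
set_option autoImplicit false

/-!
Beilinson's conjecture on regulators in weight `dim X + 1`, for `i = dim X`: on the fibrations
`∏_j (z_j + κ_j + 1/z_j) = λ ∏_e L_e` in Calabi-Yau varieties of dimension `s` over projective
space of dimension `n + 1`, the `L_e` being `m + 1` arbitrary affine forms in general position over an
arbitrary number field (for instance over `ℚ`), `p_g = binom(m, n + 1)` unramified classes in Milnor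
K-theory with linearly independent regulators, for all large and sufficiently divisible integers `λ`.
No unimodularity of the arrangement is assumed.
-/

namespace Pool.Agent.Results.MP_a09a03_nt.FibrationsNumberField

open Pool.Agent.TH826.MK (KQ symb Unramified Torus)

open Pool.Agent.TH826.GA (splx lc)

open Pool.Agent.TH333.CY

open Pool.Agent.Y797.IV (Clears GenPos)

open Pool.Agent.Y797.CY (sq_ne_four two_root_ne)

section defs

variable {K : Type*} [Field K] {s n m : ℕ}

/-- The `κ_j` are integral and the `X² + κ_j X + 1` divide `X^N - 1` for some `N > 0`. -/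
def Cyclotomic (κ : Fin (s + 1) → K) : Prop :=
  (∀ j, IsIntegral ℤ (κ j)) ∧ ∃ N : ℕ, N ≠ 0 ∧ ∀ j,
    (Polynomial.X ^ 2 + Polynomial.C (κ j) * Polynomial.X + 1 : Polynomial K) ∣
      Polynomial.X ^ N - 1

/-- At all complex points of the hypersurface `∏_j (z_j² + κ_j z_j + 1) = Φ ∏_j z_j` at which no
`z_j` vanishes and at most one of the forms vanishes, the gradient of the equation is not `0`. -/
def SmoothPoints (σ : K →+* ℂ) (lam : K) (κ : Fin (s + 1) → K) (c : Fin (m + 1) → Fin (n + 1) → K)
    (a : Fin (m + 1) → K) : Prop :=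
  ∀ p : Fin (s + 1) ⊕ Fin (n + 1) → ℂ, (∀ j, p (Sum.inl j) ≠ 0) →
    (∀ e e', e ≠ e' → lc σ c a (fun j => p (Sum.inr j)) e = 0 →
      lc σ c a (fun j => p (Sum.inr j)) e' ≠ 0) →
    MvPolynomial.eval₂ σ p (ceqn lam κ c a) = 0 →
    ∃ i, MvPolynomial.eval₂ σ p (MvPolynomial.pderiv i (ceqn lam κ c a)) ≠ 0

/-- The symbols of all simplices are unramified at all discrete valuations of the fraction field of
the coordinate ring of the hypersurface. -/
def UnramifiedSymbols.{u, v} {K : Type u} [Field K] (lam : K) (κ : Fin (s + 1) → K)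
    (c : Fin (m + 1) → Fin (n + 1) → K) (a : Fin (m + 1) → K) : Prop :=
  ∀ (L : Type v) [Field L] [Algebra (YRing lam κ c a) L] [IsFractionRing (YRing lam κ c a) L],
    ∃ f : YOpen lam κ c a →+* L,
      (∀ b : YRing lam κ c a, f (toY lam κ c a b) = algebraMap (YRing lam κ c a) L b) ∧
      ∀ S : Fin (n + 2) → Fin (m + 1), Function.Injective S →
        KQ.map (s + (n + 1) + 1) f (symb (yent lam κ c a S)) ∈ Unramified L (s + (n + 1) + 1)

/-- There are `binom(m, n + 1)` tori of dimension `s + n + 1` in the complex points of the open part,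
such that the determinant of the regulators on the tori of the symbols of the simplices
`(0, t_0, ..., t_n)`, `1 ≤ t_0 < ... < t_n ≤ m`, does not vanish. -/
def IndependentRegulators (σ : K →+* ℂ) (lam : K) (κ : Fin (s + 1) → K)
    (c : Fin (m + 1) → Fin (n + 1) → K) (a : Fin (m + 1) → K) : Prop :=
  ∃ Γ : {t : Finset (Fin m) // t.card = n + 1} → Torus (YOpen lam κ c a) (s + (n + 1)),
    (∀ t θ (x : K), (Γ t).e θ (ycst lam κ c a x) = σ x) ∧
    (Matrix.of fun t i : {t : Finset (Fin m) // t.card = n + 1} =>
      (Γ t).reg (symb (yent lam κ c a (splx i)))).det ≠ 0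

end defs

/-- Let `s ≥ 1`, `n + 1 ≤ m`, let `σ` be a complex embedding of the number field `K`, let
`κ_0, ..., κ_s` be integers of `K` such that the polynomials `X² + κ_j X + 1` divide `X^N - 1`
(e.g. `κ_j ∈ {0, 1, -1}`, `N = 12`), and let `L_e = ∑_j c_{e,j} x_j - a_e`, `0 ≤ e ≤ m`, be affine
forms in `n + 1` variables with integral coefficients in `K` in general position (the linear parts of
`n + 1` different forms are linearly independent, `n + 2` different forms have no common zero). An
algebraic integer `D ≠ 0` of `K` clears the denominators of the vertices, if the coordinates of `D p`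
are integral for all common zeros `p` of `n + 1` forms; there are such `D` (even positive rational
integers). There is a constant `C` such that for all these `D`, all algebraic integers `μ` of `K` and
`λ = μ D ^ (m + 1)` with `|σ λ| ≥ C` the coordinate ring of the hypersurface
`∏_j (z_j² + κ_j z_j + 1) = Φ ∏_j z_j`, `Φ = λ ∏_e L_e`, in the affine space with the coordinates
`z_0, ..., z_s, x_0, ..., x_n` is a domain; the hypersurface is smooth (the gradient of the equation
does not vanish) at all complex points over `σ` at which no `z_j` vanishes and at most one of the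
forms `L_e` vanishes (for `n = 0`: at all complex points with `z_j ≠ 0`); for all `n + 2` different
forms `S` the symbol `{z_0, ..., z_s, u_1, ..., u_{n+1}}`, `u_k = γ_k L_{S_k} / (γ_0 L_{S_0})`, on
the open part `Φ ∏_j z_j ≠ 0` is unramified at all discrete valuations of the function field, where
`γ_k` is `(-1)^k` times the determinant of the linear parts of the forms `S` without `S_k`; and there
are `binom(m, n + 1)` tori of dimension `s + n + 1` in the complex points (over `σ`) of the open
part, such that the determinant of the regulators on the tori of the symbols of the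
`S = (0, t_0, ..., t_n)` with `1 ≤ t_0 < ... < t_n ≤ m` does not vanish. -/
theorem result.{u, v} (s n m : ℕ) (_hs : 1 ≤ s) (hm : n + 1 ≤ m) (K : Type u) [Field K]
    [NumberField K] (σ : K →+* ℂ) (κ : Fin (s + 1) → K) (hκ : Cyclotomic κ)
    (c : Fin (m + 1) → Fin (n + 1) → K) (a : Fin (m + 1) → K) (hc : ∀ e j, IsIntegral ℤ (c e j))
    (ha : ∀ e, IsIntegral ℤ (a e)) (hG : GenPos c a) :
    (∃ D : ℕ, Clears c a (D : K)) ∧
    ∃ C : ℝ, ∀ D mu : K, Clears c a D → IsIntegral ℤ mu → C ≤ ‖σ (mu * D ^ (m + 1))‖ →
      IsDomain (YRing (mu * D ^ (m + 1)) κ c a) ∧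
      SmoothPoints σ (mu * D ^ (m + 1)) κ c a ∧
      UnramifiedSymbols.{u, v} (mu * D ^ (m + 1)) κ c a ∧
      IndependentRegulators σ (mu * D ^ (m + 1)) κ c a := by
  obtain ⟨hκ1, N, hN0, hN⟩ := hκ
  refine ⟨Pool.Agent.Y797.IV.exists_clears c a, ?_⟩
  obtain ⟨c1, hc1, h⟩ := exists_tori (a := a) σ κ hG.1 hG.2
  obtain ⟨c2, h2⟩ := exists_smooth σ hG.1 hG.2 hm fun j => sq_ne_four hN0 (hN j)
  have hrow : ∀ e, c e ≠ 0 := Pool.Agent.TH826.DC.row_ne_zero hG.1 (by omega)
  refine ⟨max c1 c2, fun D mu hD hmu hl => ?_⟩
  generalize hlam : mu * D ^ (m + 1) = lam at hl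
  have hl1 : c1 ≤ ‖σ lam‖ := (le_max_left _ _).trans hl
  have hl0 : lam ≠ 0 := by
    intro h0
    rw [h0, map_zero, norm_zero] at hl1
    linarith
  refine ⟨isDomain_YRing hrow hl0 two_ne_zero fun j => two_root_ne hN0 (hN j),
    h2 lam ((le_max_right _ _).trans hl), ?_, h lam hl1⟩
  intro L _ _ _
  have hinj : Function.Injective (algebraMap (YRing lam κ c a) L) := IsFractionRing.injective _ _
  have hne : algebraMap (YRing lam κ c a) L (ydel lam κ c a) ≠ 0 := by
    rw [Ne, map_eq_zero_iff _ hinj]
    exact ydel_ne_zero hrow hl0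
  refine ⟨liftY (algebraMap (YRing lam κ c a) L) hne, fun b => liftY_toY _ _ _, fun S hS => ?_⟩
  exact Pool.Agent.Y797.CY.symb_mem_unramified _ hG hc ha hD hmu hlam.symm hκ1 hN0 hN hS

end Pool.Agent.Results.MP_a09a03_nt.FibrationsNumberField
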