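import Pool.Agent.Y797.GC.Unr
import Pool.Agent.Y797.GC.Dom
import Pool.Agent.Y797.GC.Gen
set_option autoImplicit false

/-!
Beilinson's conjecture on regulators for `K_2` of curves (`X` of dimension 1, weight 2, `i = 1`):
curves `λ g ∏_i (y - φ_i(x)) ^ (w_i + 1) ∏_k (x - ρ_k) ^ ν_k = 1` with arbitrary polynomials `φ_i` and
numbers `ρ_k` over the ring of integers of an arbitrary number field, for all large algebraic
integers `λ`. The linear combinations of the symbols `{y - φ_i(x), x - ρ_k}` whose coefficients form
a cycle on the incidence graph of the arrangement are unramified at all discrete valuations of the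
function field, and their regulators are linearly independent. If the arrangement is nodal, the
curve is smooth in a Hirzebruch surface, and the number of the classes is its genus.
-/

namespace Pool.Agent.Results.MP_a09a03_nt.GraphCurves

open Pool.Agent.TH826.MK (KQ Unramified Torus)

open Pool.Agent.Y797.GC

section defs

variable {K : Type*} [Field K] {r p : ℕ}

/-- The `φ_i` are different and have integral coefficients, the `ρ_k` are different and integral,
`g` has integral coefficients and does not vanish at the points `(ρ_k, φ_i(ρ_k))`. -/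
def IntegralData (A : Arr K r p) : Prop :=
  (∀ i j, IsIntegral ℤ ((A.phi i).coeff j)) ∧ (∀ k, IsIntegral ℤ (A.rho k)) ∧
    (∀ i j, IsIntegral ℤ ((A.g.coeff i).coeff j)) ∧ Function.Injective A.phi ∧
    Function.Injective A.rho ∧ ∀ i k, (A.g.eval (A.phi i)).eval (A.rho k) ≠ 0

/-- The lower bounds for the dimension of the space of the admissible coefficients. -/
def DimensionBounds (A : Arr K r p) : Prop :=
  (r + 1) * p + 1 ≤ A.dim + A.comps ∧
    ∀ d, (∀ k, A.nu k ≤ 1) → A.Nodal d → (r + 1).choose 2 * d + r * ∑ k, A.nu k ≤ A.dim + r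

/-- If `g = 1`, and some `ν_k = 1` or there is a graph `i` with `w_i = 0` (and `r ≥ 1`) such that all
other `φ_j` differ from `φ_i` by a nonconstant polynomial, then the coordinate rings of the curve and
of its open part are domains. -/
def Domains (A : Arr K r p) (lam : K) : Prop :=
  A.g = 1 → ((∃ k, A.nu k = 1) ∨ ∃ i, A.w i = 0 ∧ (∃ j, j ≠ i) ∧
    ∀ j, j ≠ i → 1 ≤ (A.phi i - A.phi j).natDegree) →
  IsDomain (A.CRing lam) ∧ IsDomain (A.Open lam)

/-- The classes with admissible coefficients have unramified images in `K_2 ⊗ ℚ` of all fields `L`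
with a homomorphism from the coordinate ring of the open part to `L`. -/
def UnramifiedClasses.{u, v} {K : Type u} [Field K] (A : Arr K r p) (lam : K) : Prop :=
  ∀ n, A.IsAdm n → ∀ (L : Type v) [Field L] (f : A.Open lam →+* L),
    KQ.map 2 f (A.cl lam n) ∈ Unramified L 2

/-- There are as many loops in the complex points (over `σ`) of the open part of the curve as the
dimension of the space of the admissible coefficients, such that for every basis of this space the
determinant of the regulators of the classes of the basis on the loops does not vanish. -/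
def IndependentRegulators (σ : K →+* ℂ) (A : Arr K r p) (lam : K) : Prop :=
  ∃ Γ : Fin A.dim → Torus (A.Open lam) 1,
    (∀ l θ (x : K), (Γ l).e θ (A.toO lam (Polynomial.C (Polynomial.C x))) = σ x) ∧
    ∀ B : Fin A.dim → Fin (r + 1) → Fin p → ℚ, A.IsBasis B → (A.regMat lam Γ B).det ≠ 0

/-- If `g = 1`, all `w_i = 0`, all `ν_k ≤ 1`, the degrees of the `φ_i` are at most `d`, the
arrangement is nodal with the number `d`, and `(r + 1) d + ∑_k ν_k > 0`, then the curve is smooth at
infinity in the Hirzebruch surface. -/
def SmoothAtInfinity (σ : K →+* ℂ) (A : Arr K r p) (lam : K) : Prop :=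
  A.g = 1 → (∀ i, A.w i = 0) → (∀ k, A.nu k ≤ 1) → ∀ d, (∀ i, (A.phi i).natDegree ≤ d) →
    A.Nodal d → 0 < (r + 1) * d + ∑ k, A.nu k → A.SmoothInf lam σ d

end defs

/-- Let `σ` be a complex embedding of the number field `K`, let `φ_0, ..., φ_r` be different
polynomials in `K[x]` with integral coefficients, let `ρ_1, ..., ρ_p` be different algebraic integers
of `K`, let `w_i ≥ 0` and `ν_k ≥ 0` be integers, and let `g` be a polynomial in `K[x, y]` with
integral coefficients which does not vanish at the points `(ρ_k, φ_i(ρ_k))`. Let `Adm` be the space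
of the rational matrices `(n_{i,k})`, `0 ≤ i ≤ r`, `1 ≤ k ≤ p`, such that the sums of the rows and of
the columns vanish, and for every `k` with `ν_k = 0` and every `z` the sum of the `n_{i,k}` over all
`i` with `φ_i(ρ_k) = z` vanishes. The dimension of `Adm` is at least `(r + 1) p + 1 - (r + 1) - s`,
where `s` is the sum over `k` of the number of the points `φ_i(ρ_k)`, `0 ≤ i ≤ r`, if `ν_k = 0`, and
of `1`, if `ν_k > 0`. If all `ν_k ≤ 1` and the arrangement is nodal with the number `d` (any two
graphs meet over exactly `d` of the `ρ_k` with `ν_k = 0`, and no three over one of them), it is at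
least `d binom(r + 1, 2) + r (∑_k ν_k - 1)`.

There is a constant `C` such that for all algebraic integers `λ` of `K` with `|σ λ| ≥ C` the following
holds for the curve `λ g ∏_i (y - φ_i(x)) ^ (w_i + 1) ∏_k (x - ρ_k) ^ ν_k = 1`.

The curve is smooth (over `σ`). If `g = 1`, and some `ν_k = 1` or for some `i` with `w_i = 0` the
polynomials `φ_i - φ_j` with `j ≠ i` are not constant (and `r ≥ 1`), the coordinate ring of the curve
and the coordinate ring of its open part, on which no `x - ρ_k` vanishes, are domains.

For all `n` in `Adm` the class `∑_{i,k} n_{i,k} {y - φ_i(x), x - ρ_k}` in `K_2 ⊗ ℚ` of the open part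
has an unramified image in `K_2 ⊗ ℚ` of all fields `L` with a homomorphism from the coordinate ring of
the open part to `L` (for example the function field of the curve).

There are `dim Adm` loops in the complex points (over `σ`) of the open part, such that for every basis
of `Adm` the determinant of the regulators of the classes of the basis on the loops does not
vanish.

If `g = 1`, all `w_i = 0`, all `ν_k ≤ 1`, the degrees of the `φ_i` are at most `d`, the arrangement is
nodal with the number `d`, and `(r + 1) d + ∑_k ν_k > 0`, the closure of the curve in the Hirzebruch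
surface with the charts `(x, y)`, `(1 / x, y / x ^ d)`, `(x, 1 / y)`, `(1 / x, x ^ d / y)` is smooth
at infinity, too (so the closure is a smooth curve of genus
`d binom(r + 1, 2) + r (∑_k ν_k - 1)`). -/
theorem result.{u, v} (r p : ℕ) (K : Type u) [Field K] [NumberField K] (σ : K →+* ℂ)
    (A : Arr K r p) (hA : IntegralData A) :
    DimensionBounds A ∧ ∃ C : ℝ, ∀ lam : K, IsIntegral ℤ lam → C ≤ ‖σ lam‖ →
      A.Smooth lam σ ∧ Domains A lam ∧ UnramifiedClasses.{u, v} A lam ∧
      IndependentRegulators σ A lam ∧ SmoothAtInfinity σ A lam := by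
  obtain ⟨hphi, hrho, hg, hphi', hrho', hv⟩ := hA
  refine ⟨⟨finrank_Adm A, fun d h1 h2 => genus_le A h1 h2⟩, ?_⟩
  obtain ⟨Λ, hΛ1, hΛ⟩ := exists_tori' (A := A) σ hphi' hrho' hv
  obtain ⟨Λ', hΛ'1, hΛ'⟩ := exists_smooth A σ
  refine ⟨max Λ Λ', fun lam hlam hl => ?_⟩
  have hl1 := (le_max_left _ _).trans hl
  have hl2 := (le_max_right _ _).trans hl
  have hl0 : lam ≠ 0 := by
    rintro rfl
    rw [map_zero, norm_zero] at hl1
    linarith
  refine ⟨hΛ' lam hl2, fun hg1 h => ?_, fun n hn L _ f =>
    cl_mem_unramified f hphi hrho hg hlam hn, hΛ lam hl1, fun _ _ h3 d h4 h5 h6 =>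
    smoothInf A σ hl0 h3 hrho' (coeff_ne A hphi' hrho' h4 h5) h6⟩
  refine isDomain_of_irreducible A hg1 hl0 ?_
  rcases h with ⟨k, hk⟩ | ⟨i, hw, ⟨j, hj⟩, hd⟩
  · exact irreducible_a A hg1 hl0 hrho' hk
  · exact irreducible_b A hg1 hl0 hj hw hd

end Pool.Agent.Results.MP_a09a03_nt.GraphCurves
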