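import Pool.Agent.Y94.R.Jn
set_option autoImplicit false

/-!
Integral elements of `K_2` of the hyperelliptic curves `X : y² = D(x)` of genus `g` over a number
field `K` for which the Pell equation `P² - D Q² = 1` has a solution with nonconstant `P` (the
difference of the two points at infinity is torsion) such that the coefficients of `2 P` are
algebraic integers and the leading coefficient of `2 P` is a unit.  The regulators at several
archimedean places are considered jointly: for embeddings `σ_i : K → ℂ` there are a finite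
extension `L` of `K` and extensions of the `σ_i` to `L` such that the vectors of the regulators of
elements of the integral part of `H²(X_L, ℚ(2))` at these places generate a subspace of
codimension at most `∑ k_i`, `k_i ≤ g`, of `⨁ H¹(X_{σ_i}(ℂ), ℝ(1))`, where `k_i` is the number of
the critical values of `P^{σ_i}` that are real and not in `[-1, 1]`.
-/

namespace Pool.Agent.Results.MP_a09a03_nt.PellSeveralPlaces

open Polynomial

open Pool.Agent.TH826.MK (KQ symb Torus Unramified)

open Pool.Agent.Y94.R

/-- Let `K` be a number field with embeddings `σ_i`, `1 ≤ i ≤ e`, into `ℂ` (for instance one for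
each archimedean place, but repetitions are allowed). Let `D ∈ K[x]` be squarefree of degree
`2 g + 2`, and let `P² - D Q² = 1`, where `P ∈ K[x]` is not constant, the coefficients of `2 P` are
algebraic integers and the inverse of the leading coefficient of `2 P` is an algebraic integer, too.
Let `P' = r Q`, and let `k_i` be the number of the complex roots `β` of `r^{σ_i}`, counted with
multiplicities, such that `P^{σ_i}(β)` is real and `|P^{σ_i}(β)| > 1`. Then `k_i ≤ g`.

For each `i` let `γ_{i,l} = (x_{i,l}, y_{i,l})`, `1 ≤ l ≤ m_i`, be loops in the complex points of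
the curve `y² = D^{σ_i}(x)` with `y_{i,l} ≠ 0`, whose period vectors `(∫ x^j dx / y)_{j < g}` are
linearly independent over `ℝ` (for each `i`), and that avoid the zeros of `r^{σ_i}(x)` and the zeros
of `P^{σ_i}(x) - t_i` for some `t_i ∈ (-1, 1)`. Let `n = ∑ m_i - ∑ k_i`. Then there are a number
field `L`, an embedding `j : K → L`, embeddings `τ_i : L → ℂ` with `τ_i ∘ j = σ_i`, and `n + 1`
algebraic integers `b_k ∈ L` such that all `2 P(b_k)` are sums `ζ + 1/ζ` with roots of unity `ζ`,
such that the symbols `{P(x) + Q(x) y, (x - b_k) / (x - b_l)}` in `K_2` of the function field of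
the curve `y² = D(x)` over `L` are unramified at all discrete valuations of the function field
(also at those that are not trivial on `L`), and such that the `n` vectors, with `∑ m_i`
components, of the regulators of the symbols `{P(x) + Q(x) y, (x - b_k) / (x - b_0)}`,
`1 ≤ k ≤ n`, on the loops `γ_{i,l}` in the complex points of the curve over `τ_i`, for all `i` and
`l`, are linearly independent over `ℝ`. -/
theorem result.{u, v} (K : Type u) [Field K] [NumberField K] (g : ℕ) (D P Q r : K[X])
    (h : PellEq g D P Q r) (hP : IntegralPell P) (e : ℕ) (σ : Fin e → K →+* ℂ) :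
    (∀ i, nbad (P.map (σ i)) (r.map (σ i)) ≤ g) ∧
    ∀ (m : Fin e → ℕ) (γ : ∀ i, Fin (m i) → Lp (D.map (σ i))),
      (∀ i, IndepPeriods g (γ i)) → (∀ i, GenPos (P.map (σ i)) (r.map (σ i)) (γ i)) →
      ∀ n : ℕ, n + ∑ i, nbad (P.map (σ i)) (r.map (σ i)) = ∑ i, m i →
        ∃ (L : Type u) (_ : Field L) (_ : NumberField L) (j : K →+* L) (τ : Fin e → L →+* ℂ)
          (b : Fin (n + 1) → L) (hL : P.map j ^ 2 - D.map j * Q.map j ^ 2 = 1),
          (∀ i, (τ i).comp j = σ i) ∧ (∀ k, IsIntegral ℤ (b k)) ∧
          (∀ i k, Special (P.map (σ i)) (τ i (b k))) ∧ IsDomain (HRing (D.map j)) ∧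
          AllUnramified.{u, v} hL b ∧
          ∃ Γ : ∀ i, Fin (m i) → Torus (HOpen (D.map j) b) 1,
            (∀ i, LiesOver (τ i) b (γ i) (Γ i)) ∧
            LinearIndependent ℝ fun (k : Fin n) (p : Σ i, Fin (m i)) =>
              (Γ p.1 p.2).reg (symb (hent b hL k.succ 0)) := by
  refine ⟨fun i => nbad_le h (σ i), ?_⟩
  intro m γ hγ hgp n hn
  obtain ⟨τ, hτ, hind⟩ := exists_embeddings e σ
  have hcA : CharZero (AlgebraicClosure K) :=
    charZero_of_injective_algebraMap (algebraMap K (AlgebraicClosure K)).injective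
  choose hoffr t ht hofft using hgp
  obtain ⟨β, hβ1, hβ2, hβ3⟩ := core_joint γ hτ hind (fun i => h.pell (σ i)) h.pos
    (fun i => h.squarefree_map (σ i))
    (fun i l β hβ t ht => hoffr i l t (by rw [sub_eq_zero.1 ht, hβ])) ht
    (fun i b hb l s hs => hofft i l s (by rw [sub_eq_zero.1 hs, hb]))
    (fun i c hc => by
      rw [h.natDegree_r (σ i)]
      exact periods (γ i) (hγ i) c hc) hn
  obtain ⟨L, b, hnf, hb, hbi⟩ := exists_subfield (K := K) β fun k => (hβ1 k).isIntegral hP h.pos
  let s₀ : K →+* ℂ := Classical.arbitrary _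
  obtain ⟨s, hs, -⟩ := exists_embedding (A := AlgebraicClosure K) (ι := Empty) s₀
    (fun _ => 1) (fun _ => one_ne_zero) (fun _ _ => 1)
  have hval : ∀ f : AlgebraicClosure K →+* ℂ,
      (f.comp (algebraMap L (AlgebraicClosure K))).comp (algebraMap K L) =
        f.comp (algebraMap K (AlgebraicClosure K)) := fun f => rfl
  obtain ⟨hL, hdom, hunr⟩ := h.assemble hP (algebraMap K L)
    (s.comp (algebraMap L (AlgebraicClosure K))) b hbi fun k => by
      rw [hval]
      have h1 := (hβ1 k).special (τ := s) rfl
      rw [← hb k] at h1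
      exact h1
  have hτb : ∀ i k, ((τ i).comp (algebraMap L (AlgebraicClosure K))) (b k) = τ i (β k) :=
    fun i k => congrArg (τ i) (hb k)
  choose Γ hΓ1 hΓ2 using fun i => exists_tori_reg hL (r := r.map (algebraMap K L))
    (s := (τ i).comp (algebraMap L (AlgebraicClosure K))) (h.pell (σ i))
    (by rw [Polynomial.map_map, hval, hτ]) (by rw [Polynomial.map_map, hval, hτ])
    (by rw [Polynomial.map_map, hval, hτ]) (by rw [Polynomial.map_map, hval, hτ]) (γ i) b
    (fun k l => by
      rw [hτb]
      exact hβ2 k i l)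
  refine ⟨L, inferInstance, hnf, algebraMap K L,
    fun i => (τ i).comp (algebraMap L (AlgebraicClosure K)), b, hL,
    fun i => by rw [hval, hτ], hbi, fun i k => ?_, hdom, hunr, Γ, hΓ1, ?_⟩
  · rw [hτb]
    exact (hβ1 k).special (hτ i)
  · have h1 : (fun (k : Fin n) (p : Σ i, Fin (m i)) =>
        (Γ p.1 p.2).reg (symb (hent b hL k.succ 0))) =
        fun (k : Fin n) (p : Σ i, Fin (m i)) =>
          (γ p.1 p.2).rho (P.map (σ p.1)) (Q.map (σ p.1)) (τ p.1 (β k.succ)) -
          (γ p.1 p.2).rho (P.map (σ p.1)) (Q.map (σ p.1)) (τ p.1 (β 0)) := by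
      funext k p
      rw [hΓ2 p.1 p.2 k.succ 0, hτb, hτb]
    rw [h1]
    exact hβ3

end Pool.Agent.Results.MP_a09a03_nt.PellSeveralPlaces
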